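import Mathlib
import Pool.Agent.H19.Hairy

set_option autoImplicit false

namespace Pool.Agent.Results.MP_aa4be7_al.Counterexample

open AddMonoidAlgebra Filter Topology

abbrev L := AddMonoidAlgebra ℝ (Fin 5 → ℤ)

/-- The generators `x₀, x₁, x₂` (degree `1`) and `y₀, y₁, y₂` (degree `-1`), `x · y = 1`. -/
noncomputable def gen : Fin 3 ⊕ Fin 3 → L :=
  Sum.elim ![single ![1, 0, 0, 0, 0] 1, single ![0, 1, 0, 0, 0] 1, single ![0, 0, 1, 0, 0] 1]
    ![single ![-1, 0, 0, 0, 0] 1 - single ![-1, 1, 0, -1, 0] 1 - single ![-1, 0, 1, 0, -1] 1,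
      single ![0, 0, 0, -1, 0] 1, single ![0, 0, 0, 0, -1] 1]

noncomputable def ev (c : Fin 5 → ℝ) (hc : ∀ i, c i ≠ 0) : L →ₐ[ℝ] ℝ :=
  AddMonoidAlgebra.lift ℝ ℝ (Fin 5 → ℤ)
    { toFun := fun v => ∏ i, c i ^ v.toAdd i
      map_one' := by simp
      map_mul' := fun v w => by simp [zpow_add₀ (hc _), Finset.prod_mul_distrib] }

lemma vanish0 (p : MvPolynomial (Fin 3 ⊕ Fin 3) ℝ) (hp : MvPolynomial.aeval gen p = 0)
    (x y : Fin 3 → ℝ) (hxy : ∑ i, x i * y i = 1) (hx : ∀ i, x i ≠ 0) (hy : ∀ i, y i ≠ 0) :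
    MvPolynomial.eval (Sum.elim x y) p = 0 := by
  have hc : ∀ i, ![x 0, x 1, x 2, (y 1)⁻¹, (y 2)⁻¹] i ≠ 0 := fun i => by
    fin_cases i <;> simp [hx, hy]
  have h := congrArg (ev _ hc) hp
  rw [map_zero, ← AlgHom.comp_apply, MvPolynomial.comp_aeval] at h
  rw [← h, MvPolynomial.aeval_eq_eval]
  congr 2
  ext i
  rw [Fin.sum_univ_three] at hxy
  rcases i with i | i <;> fin_cases i <;> simp [ev, gen, Fin.prod_univ_five]
  have := hx 0
  field_simp
  linear_combination hxy

lemma vanish (p : MvPolynomial (Fin 3 ⊕ Fin 3) ℝ) (hp : MvPolynomial.aeval gen p = 0)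
    (x : Fin 3 → ℝ) (hx : ∑ i, x i * x i = 1) : MvPolynomial.eval (Sum.elim x x) p = 0 := by
  let D : ℝ → ℝ := fun t => ∑ i, (x i + t) * (x i + t)
  have hD : Continuous D := by fun_prop
  have hD0 : D 0 = 1 := by simpa [D] using hx
  let c : ℝ → Fin 3 ⊕ Fin 3 → ℝ := fun t => Sum.elim (fun i => x i + t) fun i => (x i + t) / D t
  have hc : ContinuousAt c 0 := by
    refine continuousAt_pi.mpr fun i => ?_
    rcases i with i | i
    · exact (by fun_prop : Continuous fun t : ℝ => x i + t).continuousAt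
    · exact ContinuousAt.div (by fun_prop) hD.continuousAt (by simp [hD0])
  have h1 : Tendsto (fun t => MvPolynomial.eval (c t) p) (𝓝[≠] 0)
      (𝓝 (MvPolynomial.eval (c 0) p)) :=
    (((MvPolynomial.continuous_eval p).continuousAt.comp hc).tendsto).mono_left nhdsWithin_le_nhds
  have h2 : ∀ᶠ t in 𝓝[≠] (0 : ℝ), MvPolynomial.eval (c t) p = 0 := by
    have e1 : ∀ᶠ t in 𝓝[≠] (0 : ℝ), ∀ i, t ≠ -x i := eventually_all.mpr fun i =>
      (eventually_cofinite_ne _).filter_mono (nhdsNE_le_cofinite _)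
    have e2 : ∀ᶠ t in 𝓝[≠] (0 : ℝ), D t ≠ 0 :=
      (hD.continuousAt.eventually_ne (by simp [hD0])).filter_mono nhdsWithin_le_nhds
    filter_upwards [e1, e2] with t h3 h4
    have h5 : ∀ i, x i + t ≠ 0 := fun i h => h3 i (by linarith)
    refine vanish0 p hp _ _ ?_ h5 fun i => div_ne_zero (h5 i) h4
    simp only [← mul_div_assoc, ← Finset.sum_div]
    exact div_self h4
  have h3 := tendsto_nhds_unique h1 (tendsto_const_nhds.congr' (h2.mono fun t ht => ht.symm))
  simpa [c, hD0] using h3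

lemma graded : Subalgebra.toSubmodule (Algebra.adjoin ℝ (Set.range gen)) =
    ⨆ k : ℤ, Subalgebra.toSubmodule (Algebra.adjoin ℝ (Set.range gen)) ⊓
      gradeBy ℝ (fun v : Fin 5 → ℤ => ∑ i, v i) k := by
  refine le_antisymm ?_ (iSup_le fun k => inf_le_left)
  let f : (Fin 5 → ℤ) →+ ℤ := ⟨⟨fun v => ∑ i, v i, by simp⟩, fun v w => by
    simp [Finset.sum_add_distrib]⟩
  have hf : ∀ k, gradeBy ℝ (fun v : Fin 5 → ℤ => ∑ i, v i) k = gradeBy ℝ f k := fun k => rfl
  have hs : ∀ (v : Fin 5 → ℤ) (k : ℤ), ∑ i, v i = k → (single v 1 : L) ∈ gradeBy ℝ f k := by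
    rintro v k rfl; exact single_mem_gradeBy f v 1
  conv_lhs => rw [Algebra.adjoin_eq_span]
  refine Submodule.span_le.mpr fun a ha => ?_
  have : ∃ k, a ∈ gradeBy ℝ f k := by
    refine Submonoid.closure_induction ?_ ⟨0, SetLike.one_mem_graded _⟩ ?_ ha
    · rintro _ ⟨i, rfl⟩
      rcases i with i | i <;> fin_cases i
      · exact ⟨1, hs _ _ (by decide)⟩
      · exact ⟨1, hs _ _ (by decide)⟩
      · exact ⟨1, hs _ _ (by decide)⟩
      · exact ⟨-1, sub_mem (sub_mem (hs _ _ (by decide)) (hs _ _ (by decide)))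
          (hs _ _ (by decide))⟩
      · exact ⟨-1, hs _ _ (by decide)⟩
      · exact ⟨-1, hs _ _ (by decide)⟩
    · rintro a b - - ⟨k, hk⟩ ⟨l, hl⟩
      exact ⟨k + l, SetLike.mul_mem_graded hk hl⟩
  obtain ⟨k, hk⟩ := this
  refine Submodule.mem_iSup_of_mem k ⟨?_, hk⟩
  exact (Submonoid.closure_le (S := (Algebra.adjoin ℝ (Set.range gen)).toSubmonoid)).mpr
    Algebra.subset_adjoin ha

/-- The Laurent polynomial ring in `m` variables over `R`. -/
abbrev Laurent (R : Type) [CommRing R] (m : ℕ) : Type := AddMonoidAlgebra R (Fin m → ℤ)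

/-- The degree-`k` component of the Laurent polynomial ring (`deg X_i = 1`). -/
noncomputable def piece (R : Type) [CommRing R] (m : ℕ) (k : ℤ) : Submodule R (Laurent R m) :=
  AddMonoidAlgebra.gradeBy R (fun v : Fin m → ℤ => ∑ i, v i) k

/-- `A = ⨁ₖ (A ∩ Lₖ)`. -/
def IsGraded {R : Type} [CommRing R] {m : ℕ} (A : Subalgebra R (Laurent R m)) : Prop :=
  Subalgebra.toSubmodule A = ⨆ k : ℤ, Subalgebra.toSubmodule A ⊓ piece R m k

/-- A unimodular row. -/
def Unimodular {S : Type} [CommRing S] {n : ℕ} (a : Fin n → S) : Prop :=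
  ∃ b : Fin n → S, ∑ i, a i * b i = 1

/-- The row is the first row of an invertible matrix. -/
def Completable {S : Type} [CommRing S] {n : ℕ} (a : Fin (n + 1) → S) : Prop :=
  ∃ g : GL (Fin (n + 1)) S, (g : Matrix (Fin (n + 1)) (Fin (n + 1)) S) 0 = a

/-- A Noetherian ring `R` of dimension `d`, a graded `R`-subalgebra `A` of a Laurent polynomial
ring over `R`, and a unimodular row over `A` of length `n + 1 ≥ max (d + 2) 3` that is not the
first row of any invertible matrix over `A`. -/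
theorem result : ∃ (R : Type) (_ : CommRing R) (_ : IsNoetherianRing R) (d m n : ℕ)
    (A : Subalgebra R (Laurent R m)) (a : Fin (n + 1) → A),
    ringKrullDim R = d ∧ 1 ≤ m ∧ max (d + 2) 3 ≤ n + 1 ∧ IsGraded A ∧ Unimodular a ∧
      ¬ Completable a := by
  refine ⟨ℝ, inferInstance, inferInstance, 0, 5, 2, Algebra.adjoin ℝ (Set.range gen),
    fun i => ⟨gen (.inl i), Algebra.subset_adjoin ⟨_, rfl⟩⟩,
    ringKrullDim_eq_zero_of_field ℝ, by norm_num, by norm_num, graded,
    ⟨fun i => ⟨gen (.inr i), Algebra.subset_adjoin ⟨_, rfl⟩⟩, Subtype.ext ?_⟩,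
    fun ⟨g, hg⟩ => ?_⟩
  · rw [Fin.sum_univ_three]
    change gen (.inl 0) * gen (.inr 0) + gen (.inl 1) * gen (.inr 1) +
      gen (.inl 2) * gen (.inr 2) = 1
    simp [gen, mul_sub, single_mul_single]
    rw [one_def, show (0 : Fin 5 → ℤ) = ![0, 0, 0, 0, 0] by decide]
    abel
  · have hA : ∀ a : Algebra.adjoin ℝ (Set.range gen), ∃ p, MvPolynomial.aeval gen p = a.1 :=
      fun a => (Algebra.adjoin_range_eq_range_aeval ℝ gen).le a.2
    choose P hP using hA
    refine Pool.Agent.H19.Hairy.hairy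
      (fun x j => MvPolynomial.eval (Sum.elim x x) (P (g.val 1 j)))
      (continuous_pi fun j => (MvPolynomial.continuous_eval _).comp (continuous_pi fun i => by
        rcases i with i | i <;> exact continuous_apply i)) fun x hx =>
      ⟨fun i j => MvPolynomial.eval (Sum.elim x x) (P (g.val i j)),
        fun i j => MvPolynomial.eval (Sum.elim x x) (P (g.inv i j)), ?_, ?_, rfl⟩
    · ext i j
      have h1 := congrArg Subtype.val (congrFun (congrFun g.inv_val i) j)
      have := vanish (∑ k, P (g.inv i k) * P (g.val k j) - if i = j then 1 else 0) (by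
        simp only [map_sub, map_sum, map_mul, hP]
        rw [Matrix.mul_apply, Matrix.one_apply] at h1
        split_ifs at h1 ⊢ <;> simpa [sub_eq_zero] using h1) x hx
      rw [Matrix.mul_apply, Matrix.one_apply]
      split_ifs at this ⊢ <;> simpa [sub_eq_zero] using this
    · ext j
      have := vanish (P (g.val 0 j) - MvPolynomial.X (.inl j)) (by
        simp [hP, congrFun hg j]) x hx
      simpa [sub_eq_zero] using this

end Pool.Agent.Results.MP_aa4be7_al.Counterexample
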